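import Pool.Agent.H23.AF.Targets

/-! Module D2: moments over a dyadic interval, with cells of the logarithm. -/

set_option autoImplicit false

namespace Pool.Agent.H14.AF

open Pool.Agent.H38.AE Pool.Agent.H23.AF

/-- a set of natural numbers in a residue class, of diameter at most `L` -/
lemma card_diam (q : ℕ) [NeZero q] (S : Finset ℕ) (L : ℝ) (hL : 0 ≤ L)
    (hc : ∀ m ∈ S, ∀ m' ∈ S, ((m : ℕ) : ZMod q) = ((m' : ℕ) : ZMod q))
    (hd : ∀ m ∈ S, ∀ m' ∈ S, (m : ℝ) - m' ≤ L) : (S.card : ℝ) ≤ L / q + 1 := by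
  have hq0 : 0 < q := Nat.pos_of_ne_zero (NeZero.ne q)
  have hq : (0 : ℝ) < q := by exact_mod_cast hq0
  rcases S.eq_empty_or_nonempty with rfl | hS
  · rw [Finset.card_empty, Nat.cast_zero]
    positivity
  · set m0 := S.min' hS with hm0
    have hm0S : m0 ∈ S := S.min'_mem hS
    have hle : ∀ m ∈ S, m0 ≤ m := fun m hm => S.min'_le m hm
    have hdvd : ∀ m ∈ S, q ∣ m - m0 := by
      intro m hm
      have h1 := hc m0 hm0S m hm
      rw [ZMod.natCast_eq_natCast_iff] at h1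
      exact (Nat.modEq_iff_dvd' (hle m hm)).1 h1
    have h2 : S.card ≤ (Finset.range (⌊L / q⌋₊ + 1)).card := by
      refine Finset.card_le_card_of_injOn (fun m => (m - m0) / q) ?_ ?_
      · intro m hm
        have hm' : m ∈ S := hm
        rw [Finset.mem_coe, Finset.mem_range, Nat.lt_succ_iff]
        refine Nat.le_floor ?_
        refine Nat.cast_div_le.trans ?_
        rw [Nat.cast_sub (hle m hm')]
        exact div_le_div_of_nonneg_right (hd m hm' m0 hm0S) hq.le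
      · intro m hm m' hm' h
        have hm1 : m ∈ S := hm
        have hm2 : m' ∈ S := hm'
        have e1 := Nat.div_mul_cancel (hdvd m hm1)
        have e2 := Nat.div_mul_cancel (hdvd m' hm2)
        have h' : (m - m0) / q = (m' - m0) / q := h
        rw [h'] at e1
        have h3 := hle m hm1
        have h4 := hle m' hm2
        omega
    rw [Finset.card_range] at h2
    have h3 : (S.card : ℝ) ≤ (⌊L / q⌋₊ : ℝ) + 1 := by exact_mod_cast h2
    have h4 : (⌊L / q⌋₊ : ℝ) ≤ L / q := Nat.floor_le (by positivity)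
    linarith

/-- products of tuples with the same sum of cells are close -/
lemma cel_close (T j n Y : ℕ) (hj : 1 ≤ j) (hn : 1 ≤ n) (hY : 1 ≤ Y) (u v : Fin n → ℕ)
    (hu : ∀ i, Y ≤ u i ∧ u i < 2 * Y) (hv : ∀ i, Y ≤ v i ∧ v i < 2 * Y)
    (h : ∑ i, cel T j (u i) = ∑ i, cel T j (v i)) :
    ((∏ i, u i : ℕ) : ℝ) - ((∏ i, v i : ℕ) : ℝ) ≤
      2 * n * Real.exp n * ((2 * Y) ^ n : ℕ) / ((T : ℝ) + 1) := by
  have hprod : ∀ w : Fin n → ℕ, (∀ i, Y ≤ w i ∧ w i < 2 * Y) → ∏ i, w i ≤ (2 * Y) ^ n := by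
    intro w hw
    calc ∏ i, w i ≤ ∏ _i : Fin n, (2 * Y) := Finset.prod_le_prod' fun i _ => (hw i).2.le
      _ = (2 * Y) ^ n := by rw [Finset.prod_const, Finset.card_univ, Fintype.card_fin]
  have hpos : ∀ w : Fin n → ℕ, (∀ i, Y ≤ w i ∧ w i < 2 * Y) → 0 < ∏ i, w i := by
    intro w hw
    exact Finset.prod_pos fun i _ => by have := (hw i).1; omega
  have hU := hprod u hu
  have hV := hprod v hv
  have hU0 : (0 : ℝ) < ((∏ i, u i : ℕ) : ℝ) := by exact_mod_cast hpos u hu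
  have hV0 : (0 : ℝ) < ((∏ i, v i : ℕ) : ℝ) := by exact_mod_cast hpos v hv
  have hUr : ((∏ i, u i : ℕ) : ℝ) ≤ (((2 * Y) ^ n : ℕ) : ℝ) := by exact_mod_cast hU
  have hVr : ((∏ i, v i : ℕ) : ℝ) ≤ (((2 * Y) ^ n : ℕ) : ℝ) := by exact_mod_cast hV
  have hn1 : (1 : ℝ) ≤ n := by exact_mod_cast hn
  have hexp1 : (1 : ℝ) ≤ Real.exp n := Real.one_le_exp (by positivity)
  rcases Nat.eq_zero_or_pos T with rfl | hT
  · rw [Nat.cast_zero, zero_add, div_one]
    have h1 : (1 : ℝ) ≤ 2 * n * Real.exp n := by nlinarith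
    have h2 : (((2 * Y) ^ n : ℕ) : ℝ) ≤ 2 * n * Real.exp n * ((2 * Y) ^ n : ℕ) :=
      le_mul_of_one_le_left (Nat.cast_nonneg _) h1
    linarith
  · have hT1 : (1 : ℝ) ≤ T := by exact_mod_cast hT
    have hj1 : (1 : ℝ) ≤ j := by exact_mod_cast hj
    have hTj : (0 : ℝ) < (T : ℝ) * j := by positivity
    have hlogs : ∀ w : Fin n → ℕ, (∀ i, Y ≤ w i ∧ w i < 2 * Y) →
        (T : ℝ) * j * Real.log ((∏ i, w i : ℕ) : ℝ) = ∑ i, (T : ℝ) * j * Real.log (w i) := by
      intro w hw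
      rw [Nat.cast_prod, Real.log_prod, Finset.mul_sum]
      intro i _
      have := (hw i).1
      have h1 : (0 : ℝ) < w i := by exact_mod_cast (by omega : 0 < w i)
      exact h1.ne'
    have hup : (T : ℝ) * j * Real.log ((∏ i, u i : ℕ) : ℝ) ≤
        (∑ i, cel T j (u i) : ℕ) + (n : ℝ) := by
      rw [hlogs u hu]
      push_cast
      have h1 : ∀ i ∈ (Finset.univ : Finset (Fin n)),
          (T : ℝ) * j * Real.log (u i) ≤ (cel T j (u i) : ℝ) + 1 := fun i _ =>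
        (Nat.lt_floor_add_one _).le
      refine (Finset.sum_le_sum h1).trans ?_
      rw [Finset.sum_add_distrib, Finset.sum_const, Finset.card_univ, Fintype.card_fin]
      simp
    have hlo : ((∑ i, cel T j (v i) : ℕ) : ℝ) ≤
        (T : ℝ) * j * Real.log ((∏ i, v i : ℕ) : ℝ) := by
      rw [hlogs v hv]
      push_cast
      refine Finset.sum_le_sum fun i _ => Nat.floor_le ?_
      have := (hv i).1
      have h1 : (1 : ℝ) ≤ v i := by exact_mod_cast (by omega : 1 ≤ v i)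
      have h2 := Real.log_nonneg h1
      positivity
    rw [h] at hup
    set a := Real.log ((∏ i, u i : ℕ) : ℝ) with ha
    set b := Real.log ((∏ i, v i : ℕ) : ℝ) with hb
    have h1 : (T : ℝ) * (j * (a - b)) ≤ n := by linarith
    have hea : Real.exp a = ((∏ i, u i : ℕ) : ℝ) := Real.exp_log hU0
    have heb : Real.exp b = ((∏ i, v i : ℕ) : ℝ) := Real.exp_log hV0
    rcases le_or_gt a b with hab | hab
    · have h2 : ((∏ i, u i : ℕ) : ℝ) ≤ ((∏ i, v i : ℕ) : ℝ) := by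
        rw [← hea, ← heb]
        exact Real.exp_le_exp.2 hab
      have h3 : (0 : ℝ) ≤ 2 * n * Real.exp n * ((2 * Y) ^ n : ℕ) / ((T : ℝ) + 1) := by
        positivity
      linarith
    · set x := a - b with hx
      have hx0 : 0 < x := by rw [hx]; linarith
      have h2 : (T : ℝ) * x ≤ n := by
        have h3 : x ≤ j * x := le_mul_of_one_le_left hx0.le hj1
        have h4 : (T : ℝ) * x ≤ T * (j * x) := mul_le_mul_of_nonneg_left h3 (by linarith)
        linarith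
      have hxn : x ≤ n := by nlinarith
      have h3 : ((∏ i, u i : ℕ) : ℝ) = ((∏ i, v i : ℕ) : ℝ) * Real.exp x := by
        rw [← hea, ← heb, ← Real.exp_add]
        congr 1
        rw [hx]; ring
      have h4 : Real.exp x - 1 ≤ x * Real.exp x := by
        have h5 := Real.add_one_le_exp (-x)
        have h6 : Real.exp x * Real.exp (-x) = 1 := by
          rw [← Real.exp_add, add_neg_cancel, Real.exp_zero]
        have h7 : Real.exp x * (-x + 1) ≤ Real.exp x * Real.exp (-x) :=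
          mul_le_mul_of_nonneg_left h5 (Real.exp_pos x).le
        linarith
      have h5 : x * ((T : ℝ) + 1) ≤ 2 * n := by nlinarith
      have h6 : x * Real.exp x ≤ 2 * n / ((T : ℝ) + 1) * Real.exp n := by
        refine mul_le_mul ?_ (Real.exp_le_exp.2 hxn) (Real.exp_pos x).le (by positivity)
        rw [le_div_iff₀ (by positivity)]
        exact h5
      calc ((∏ i, u i : ℕ) : ℝ) - ((∏ i, v i : ℕ) : ℝ)
          = ((∏ i, v i : ℕ) : ℝ) * (Real.exp x - 1) := by rw [h3]; ring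
        _ ≤ (((2 * Y) ^ n : ℕ) : ℝ) * (2 * n / ((T : ℝ) + 1) * Real.exp n) := by
            refine mul_le_mul hVr (h4.trans h6) ?_ (Nat.cast_nonneg _)
            have := Real.one_le_exp hx0.le
            linarith
        _ = _ := by ring

/-- tuples with a product in a residue class and with a given sum of the cells -/
lemma card_tuples (q T j n Y : ℕ) [NeZero q] (hj : 1 ≤ j) (hn : 1 ≤ n) (hY : 1 ≤ Y) (n0 : ℕ)
    (hn0 : ∀ m : ℕ, 1 ≤ m → m < (2 * Y) ^ n →
      ((Fintype.piFinset (fun _ : Fin n => m.divisors)).filter (fun u => ∏ i, u i = m)).card ≤ n0)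
    (c : ZMod q) (s : ℕ) :
    ((Fintype.piFinset (fun _ : Fin n => Finset.Ico Y (2 * Y))).filter
      (fun u => ((∏ i, u i : ℕ) : ZMod q) = c ∧ ∑ i, cel T j (u i) = s)).card ≤
      n0 * ⌊2 * n * Real.exp n * ((2 * Y) ^ n : ℕ) / ((T : ℝ) + 1) / q + 1⌋₊ := by
  classical
  set A := (Fintype.piFinset (fun _ : Fin n => Finset.Ico Y (2 * Y))).filter
      (fun u => ((∏ i, u i : ℕ) : ZMod q) = c ∧ ∑ i, cel T j (u i) = s) with hA
  have hAm : ∀ u ∈ A, (∀ i, Y ≤ u i ∧ u i < 2 * Y) ∧ ((∏ i, u i : ℕ) : ZMod q) = c ∧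
      ∑ i, cel T j (u i) = s := by
    intro u hu
    rw [hA, Finset.mem_filter, Fintype.mem_piFinset] at hu
    exact ⟨fun i => Finset.mem_Ico.1 (hu.1 i), hu.2⟩
  have himg : (A.image (fun u => ∏ i, u i)).card ≤
      ⌊2 * n * Real.exp n * ((2 * Y) ^ n : ℕ) / ((T : ℝ) + 1) / q + 1⌋₊ := by
    refine Nat.le_floor (card_diam q _ _ (by positivity) ?_ ?_)
    · intro m hm m' hm'
      obtain ⟨u, hu, rfl⟩ := Finset.mem_image.1 hm
      obtain ⟨v, hv, rfl⟩ := Finset.mem_image.1 hm'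
      rw [(hAm u hu).2.1, (hAm v hv).2.1]
    · intro m hm m' hm'
      obtain ⟨u, hu, rfl⟩ := Finset.mem_image.1 hm
      obtain ⟨v, hv, rfl⟩ := Finset.mem_image.1 hm'
      exact cel_close T j n Y hj hn hY u v (hAm u hu).1 (hAm v hv).1
        ((hAm u hu).2.2.trans (hAm v hv).2.2.symm)
  refine (Finset.card_le_mul_card_image_of_maps_to
    (fun u hu => Finset.mem_image_of_mem (fun u => ∏ i, u i) hu) n0 ?_).trans
    (Nat.mul_le_mul_left _ himg)
  intro m hm
  obtain ⟨u0, hu0, rfl⟩ := Finset.mem_image.1 hm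
  have hu0' := (hAm u0 hu0).1
  have hpos : 1 ≤ ∏ i, u0 i :=
    Nat.succ_le_of_lt (Finset.prod_pos fun i _ => by have := (hu0' i).1; omega)
  have hlt : ∏ i, u0 i < (2 * Y) ^ n := by
    have hne : (Finset.univ : Finset (Fin n)).Nonempty := ⟨⟨0, hn⟩, Finset.mem_univ _⟩
    calc ∏ i, u0 i < ∏ _i : Fin n, (2 * Y) := by
          refine Finset.prod_lt_prod_of_nonempty (fun i _ => ?_) (fun i _ => ?_) hne
          · have := (hu0' i).1
            omega
          · exact (hu0' i).2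
      _ = (2 * Y) ^ n := by rw [Finset.prod_const, Finset.card_univ, Fintype.card_fin]
  refine le_trans (Finset.card_le_card ?_) (hn0 _ hpos hlt)
  intro u hu
  rw [Finset.mem_filter] at hu
  rw [Finset.mem_filter, Fintype.mem_piFinset]
  refine ⟨fun i => ?_, hu.2⟩
  rw [Nat.mem_divisors]
  refine ⟨?_, by omega⟩
  rw [← hu.2]
  exact Finset.dvd_prod_of_mem u (Finset.mem_univ i)

theorem pf_D2 (hB : T_B) (hC : T_C) : T_D2 := by
  intro j n ε hj hn hε
  classical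
  have hn' : (0 : ℝ) < n := by exact_mod_cast hn
  obtain ⟨C2, hC2, hB'⟩ := hB n (ε / n) (by positivity)
  obtain ⟨C1, hC1, hC'⟩ := hC j ε hj hε
  refine ⟨C1 * (C2 * 2 ^ ε) * (2 * n * Real.exp n * 2 ^ n + 1), by positivity, ?_⟩
  intro q T _ Y hY
  have hq : (0 : ℝ) < q := by exact_mod_cast Nat.pos_of_ne_zero (NeZero.ne q)
  have hT : (0 : ℝ) < (T : ℝ) + 1 := by positivity
  have hYr : (1 : ℝ) ≤ Y := by exact_mod_cast hY
  set I : Finset (Fin n → ℕ) := Fintype.piFinset (fun _ : Fin n => Finset.Ico Y (2 * Y)) with hI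
  have hIcard : I.card = Y ^ n := by
    rw [hI, Fintype.card_piFinset, Finset.prod_const, Finset.card_univ, Fintype.card_fin,
      Nat.card_Ico]
    have h2Y : 2 * Y - Y = Y := by omega
    rw [h2Y]
  -- the bound for the number of tuples with a given product
  set X : ℕ := (2 * Y) ^ n with hX
  have hX1 : 1 ≤ X := Nat.one_le_pow _ _ (by omega)
  set n0 : ℕ := ⌊C2 * (X : ℝ) ^ (ε / n)⌋₊ with hn0
  have hn0' : ∀ m : ℕ, 1 ≤ m → m < X →
      ((Fintype.piFinset (fun _ : Fin n => m.divisors)).filter (fun u => ∏ i, u i = m)).card ≤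
        n0 := by
    intro m hm1 hm2
    refine Nat.le_floor ((hB' m hm1).trans ?_)
    refine mul_le_mul_of_nonneg_left ?_ hC2.le
    refine Real.rpow_le_rpow (Nat.cast_nonneg _) ?_ (by positivity)
    exact_mod_cast hm2.le
  set n1 : ℕ := ⌊2 * n * Real.exp n * (X : ℕ) / ((T : ℝ) + 1) / q + 1⌋₊ with hn1
  set Rt : Finset (ZMod q)ˣ := (Finset.univ : Finset (ZMod q)ˣ).filter (fun u => u ^ j = 1) with hRt
  have hcount : ((I ×ˢ I).filter
      (fun t => ((∏ i, t.1 i : ℕ) : ZMod q) ^ j = ((∏ i, t.2 i : ℕ) : ZMod q) ^ j ∧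
      IsUnit (((∏ i, t.1 i : ℕ) : ZMod q) ^ j) ∧
      ∑ i, cel T j (t.1 i) = ∑ i, cel T j (t.2 i))).card ≤
      Rt.card * (n0 * n1) * I.card := by
    refine Finset.card_le_mul_card_image_of_maps_to (f := Prod.snd) (t := I) ?_ _ ?_
    · intro t ht
      exact (Finset.mem_product.1 (Finset.mem_filter.1 ht).1).2
    · intro v hv
      have h2 : Finset.card (Rt.biUnion (fun ζ => I.filter (fun u =>
          ((∏ i, u i : ℕ) : ZMod q) = (ζ : ZMod q) * ((∏ i, v i : ℕ) : ZMod q) ∧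
          ∑ i, cel T j (u i) = ∑ i, cel T j (v i)))) ≤
          Rt.card * (n0 * n1) :=
        Finset.card_biUnion_le_card_mul _ _ _ fun ζ _ =>
          card_tuples q T j n Y hj hn hY n0 hn0' _ _
      refine le_trans (Finset.card_le_card_of_injOn Prod.fst ?_ ?_) h2
      · intro t ht
        rw [Finset.mem_coe, Finset.mem_filter, Finset.mem_filter, Finset.mem_product] at ht
        obtain ⟨⟨⟨ht1, ht2⟩, ht3, ht4, ht6⟩, ht5⟩ := ht
        rw [Finset.mem_coe, Finset.mem_biUnion]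
        rw [ht5] at ht3 ht6
        have hj0 : j ≠ 0 := by omega
        have hu1 : IsUnit (((∏ i, t.1 i : ℕ) : ZMod q)) := (isUnit_pow_iff hj0).1 ht4
        have hu2 : IsUnit (((∏ i, v i : ℕ) : ZMod q)) := by
          rw [ht3] at ht4
          exact (isUnit_pow_iff hj0).1 ht4
        obtain ⟨a, ha⟩ := hu1
        obtain ⟨b, hb⟩ := hu2
        refine ⟨a * b⁻¹, ?_, ?_⟩
        · rw [hRt, Finset.mem_filter]
          refine ⟨Finset.mem_univ _, ?_⟩
          have h3 : a ^ j = b ^ j := by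
            apply Units.ext
            rw [Units.val_pow_eq_pow_val, Units.val_pow_eq_pow_val, ha, hb]
            exact ht3
          rw [mul_pow, inv_pow, h3, mul_inv_cancel]
        · rw [Finset.mem_filter]
          refine ⟨ht1, ?_, ht6⟩
          rw [← ha, ← hb, ← Units.val_mul, inv_mul_cancel_right]
      · intro t ht t' ht' h
        rw [Finset.mem_coe, Finset.mem_filter] at ht ht'
        exact Prod.ext h (ht.2.trans ht'.2.symm)
  have hcast : ((((I ×ˢ I).filter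
      (fun t => ((∏ i, t.1 i : ℕ) : ZMod q) ^ j = ((∏ i, t.2 i : ℕ) : ZMod q) ^ j ∧
      IsUnit (((∏ i, t.1 i : ℕ) : ZMod q) ^ j) ∧
      ∑ i, cel T j (t.1 i) = ∑ i, cel T j (t.2 i))).card : ℕ) : ℝ) ≤
      ((Rt.card * (n0 * n1) * I.card : ℕ) : ℝ) := by
    exact_mod_cast hcount
  refine hcast.trans ?_
  rw [hIcard]
  push_cast
  have hR : (Rt.card : ℝ) ≤ C1 * (q : ℝ) ^ ε := hC' q
  have hn0r : (n0 : ℝ) ≤ C2 * (X : ℝ) ^ (ε / n) := Nat.floor_le (by positivity)
  have hn1r : (n1 : ℝ) ≤ 2 * n * Real.exp n * (X : ℕ) / ((T : ℝ) + 1) / q + 1 :=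
    Nat.floor_le (by positivity)
  have hXr : (X : ℝ) = 2 ^ n * (Y : ℝ) ^ n := by
    rw [hX]
    push_cast
    rw [mul_pow]
  have hXe : (X : ℝ) ^ (ε / n) = 2 ^ ε * (Y : ℝ) ^ ε := by
    rw [hX]
    push_cast
    rw [← Real.rpow_natCast, ← Real.rpow_mul (by positivity), mul_div_cancel₀ _ hn'.ne',
      Real.mul_rpow (by norm_num) (by positivity)]
  have hYn : (1 : ℝ) ≤ (Y : ℝ) ^ n := one_le_pow₀ hYr
  set W : ℝ := 2 * n * Real.exp n * 2 ^ n with hW
  have hW0 : 0 < W := by positivity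
  have h1 : (n0 : ℝ) * (n1 : ℝ) ≤
      C2 * (2 ^ ε * (Y : ℝ) ^ ε) * (W * (Y : ℝ) ^ n / ((T : ℝ) + 1) / q + 1) := by
    rw [← hXe]
    refine mul_le_mul hn0r ?_ (Nat.cast_nonneg _) (by positivity)
    refine hn1r.trans (le_of_eq ?_)
    rw [hXr, hW]
    ring
  have h2 : (Y : ℝ) ^ n * (W * (Y : ℝ) ^ n / ((T : ℝ) + 1) / q + 1) ≤
      (W + 1) * ((Y : ℝ) ^ n + (Y : ℝ) ^ (2 * n) / ((q : ℝ) * ((T : ℝ) + 1))) := by
    have h4 : (Y : ℝ) ^ n * (W * (Y : ℝ) ^ n / ((T : ℝ) + 1) / q + 1) =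
        W * ((Y : ℝ) ^ (2 * n) / ((q : ℝ) * ((T : ℝ) + 1))) + (Y : ℝ) ^ n := by
      rw [two_mul n, pow_add]
      field_simp
    rw [h4]
    have h5 : 0 ≤ (Y : ℝ) ^ (2 * n) / ((q : ℝ) * ((T : ℝ) + 1)) := by positivity
    nlinarith
  calc (Rt.card : ℝ) * (n0 * n1) * (Y : ℝ) ^ n
      ≤ (C1 * (q : ℝ) ^ ε) * (C2 * (2 ^ ε * (Y : ℝ) ^ ε) *
          (W * (Y : ℝ) ^ n / ((T : ℝ) + 1) / q + 1)) * (Y : ℝ) ^ n := by
        refine mul_le_mul_of_nonneg_right ?_ (by positivity)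
        exact mul_le_mul hR h1 (by positivity) (by positivity)
    _ = C1 * (C2 * 2 ^ ε) * ((q : ℝ) ^ ε * (Y : ℝ) ^ ε) *
        ((Y : ℝ) ^ n * (W * (Y : ℝ) ^ n / ((T : ℝ) + 1) / q + 1)) := by ring
    _ ≤ C1 * (C2 * 2 ^ ε) * ((q : ℝ) ^ ε * (Y : ℝ) ^ ε) *
        ((W + 1) * ((Y : ℝ) ^ n + (Y : ℝ) ^ (2 * n) / ((q : ℝ) * ((T : ℝ) + 1)))) :=
        mul_le_mul_of_nonneg_left h2 (by positivity)
    _ = C1 * (C2 * 2 ^ ε) * (W + 1) * ((q : ℝ) * Y) ^ ε *
        ((Y : ℝ) ^ n + (Y : ℝ) ^ (2 * n) / ((q : ℝ) * ((T : ℝ) + 1))) := by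
        rw [Real.mul_rpow hq.le (by positivity)]
        ring

end Pool.Agent.H14.AF
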