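import Pool.Agent.H23.AF.Targets
import Pool.Agent.H87.AE.G

/-! Module G2: weighted energy of the integers up to `N` modulo `q`, with an archimedean
condition. -/

set_option autoImplicit false

namespace Pool.Agent.H14.AF

open Pool.Agent.H38.AE Pool.Agent.H23.AF Pool.Agent.H87.AE Finset

lemma w5_pos {Q R : ℝ} (hQ : 0 < Q) (hR : 0 < R) : 0 < w5 Q R := by
  unfold w5
  positivity

/-- summation over neighbouring cells -/
lemma ker_sum (R : Finset ℕ) (a b : ℕ → ℝ) :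
    ∑ p ∈ (R ×ˢ R).filter (fun p => p.1 ≤ p.2 + 3 ∧ p.2 ≤ p.1 + 3), a p.1 * b p.2 ≤
      7 / 2 * ∑ m ∈ R, a m ^ 2 + 7 / 2 * ∑ m ∈ R, b m ^ 2 := by
  classical
  have hcard : ∀ m : ℕ, ((R.filter (fun m' => m ≤ m' + 3 ∧ m' ≤ m + 3)).card : ℝ) ≤ 7 := by
    intro m
    have h1 : (R.filter (fun m' => m ≤ m' + 3 ∧ m' ≤ m + 3)).card ≤ (Finset.Icc (m - 3) (m + 3)).card := by
      refine Finset.card_le_card fun m' hm' => ?_
      rw [Finset.mem_filter] at hm'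
      rw [Finset.mem_Icc]
      omega
    rw [Nat.card_Icc] at h1
    have h2 : (R.filter (fun m' => m ≤ m' + 3 ∧ m' ≤ m + 3)).card ≤ 7 := by omega
    exact_mod_cast h2
  have h1 : ∑ p ∈ (R ×ˢ R).filter (fun p => p.1 ≤ p.2 + 3 ∧ p.2 ≤ p.1 + 3), a p.1 * b p.2 ≤
      ∑ p ∈ (R ×ˢ R).filter (fun p => p.1 ≤ p.2 + 3 ∧ p.2 ≤ p.1 + 3),
        (a p.1 ^ 2 / 2 + b p.2 ^ 2 / 2) := by
    refine Finset.sum_le_sum fun p _ => ?_
    nlinarith [sq_nonneg (a p.1 - b p.2)]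
  refine h1.trans ?_
  rw [Finset.sum_add_distrib]
  refine add_le_add ?_ ?_
  · rw [Finset.sum_filter, Finset.sum_product, Finset.mul_sum]
    refine Finset.sum_le_sum fun m _ => ?_
    rw [← Finset.sum_filter]
    simp only
    rw [Finset.sum_const, nsmul_eq_mul]
    have h2 := hcard m
    nlinarith [sq_nonneg (a m)]
  · rw [Finset.sum_filter, Finset.sum_product_right, Finset.mul_sum]
    refine Finset.sum_le_sum fun m _ => ?_
    rw [← Finset.sum_filter]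
    simp only
    rw [Finset.sum_const, nsmul_eq_mul]
    have h2 := hcard m
    have h3 : (R.filter (fun m' => m' ≤ m + 3 ∧ m ≤ m' + 3)) =
        R.filter (fun m' => m ≤ m' + 3 ∧ m' ≤ m + 3) := by
      refine Finset.filter_congr fun m' _ => ?_
      exact and_comm
    rw [h3]
    nlinarith [sq_nonneg (b m)]

/-- the cell of an integer -/
noncomputable def cl (T x : ℕ) : ℕ := ⌊(T : ℝ) * Real.log x⌋₊

lemma cl_near (T x x' : ℕ) (hx : 1 ≤ x) (hx' : 1 ≤ x')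
    (h : (T : ℝ) * |Real.log x - Real.log x'| ≤ 2) : cl T x ≤ cl T x' + 3 := by
  have h1 : (1 : ℝ) ≤ x := by exact_mod_cast hx
  have h2 : (1 : ℝ) ≤ x' := by exact_mod_cast hx'
  have h3 := Real.log_nonneg h1
  have h4 := Real.log_nonneg h2
  have hT : (0 : ℝ) ≤ T := Nat.cast_nonneg T
  have h5 : (T : ℝ) * (Real.log x - Real.log x') ≤ 2 :=
    (mul_le_mul_of_nonneg_left (le_abs_self _) hT).trans h
  have h6 : (cl T x : ℝ) ≤ (T : ℝ) * Real.log x := Nat.floor_le (mul_nonneg hT h3)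
  have h7 : (T : ℝ) * Real.log x' < (cl T x' : ℝ) + 1 := Nat.lt_floor_add_one _
  have h8 : (cl T x : ℝ) < ((cl T x' + 3 : ℕ) : ℝ) := by
    push_cast
    linarith
  exact (Nat.cast_lt.1 h8).le

lemma cl_eq (T x x' : ℕ) (hx : 1 ≤ x) (hx' : 1 ≤ x') (h : cl T x = cl T x') :
    (T : ℝ) * |Real.log x - Real.log x'| ≤ 1 := by
  have h1 : (1 : ℝ) ≤ x := by exact_mod_cast hx
  have h2 : (1 : ℝ) ≤ x' := by exact_mod_cast hx'
  have h3 := Real.log_nonneg h1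
  have h4 := Real.log_nonneg h2
  have hT : (0 : ℝ) ≤ T := Nat.cast_nonneg T
  have h6 : (cl T x : ℝ) ≤ (T : ℝ) * Real.log x := Nat.floor_le (mul_nonneg hT h3)
  have h7 : (T : ℝ) * Real.log x' < (cl T x' : ℝ) + 1 := Nat.lt_floor_add_one _
  have h8 : (cl T x' : ℝ) ≤ (T : ℝ) * Real.log x' := Nat.floor_le (mul_nonneg hT h4)
  have h9 : (T : ℝ) * Real.log x < (cl T x : ℝ) + 1 := Nat.lt_floor_add_one _
  rw [h] at h6 h9
  have h10 : (T : ℝ) * |Real.log x - Real.log x'| = |(T : ℝ) * (Real.log x - Real.log x')| := by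
    rw [abs_mul, abs_of_nonneg hT]
  rw [h10, abs_le]
  constructor <;> linarith

lemma cl_le (T N x : ℕ) (hx : 1 ≤ x) (hxN : x ≤ N) : cl T x ≤ cl T N := by
  have h1 : (0 : ℝ) < x := by exact_mod_cast hx
  refine Nat.floor_le_floor (mul_le_mul_of_nonneg_left ?_ (Nat.cast_nonneg T))
  exact Real.log_le_log h1 (by exact_mod_cast hxN)

/-- the integers in a residue class and a cell -/
noncomputable def cls (q T N : ℕ) [NeZero q] (g : (ZMod q)ˣ) (m : ℕ) : Finset ℕ :=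
  (Finset.Icc 1 N).filter (fun x : ℕ => (x : ZMod q) = (g : ZMod q) ∧ cl T x = m)

lemma mem_cls {q T N : ℕ} [NeZero q] {g : (ZMod q)ˣ} {m x : ℕ} :
    x ∈ cls q T N g m ↔ (1 ≤ x ∧ x ≤ N) ∧ (x : ZMod q) = (g : ZMod q) ∧ cl T x = m := by
  unfold cls
  rw [Finset.mem_filter, Finset.mem_Icc]

/-- From the energy to the twisted sum. -/
theorem twist2 (q T N : ℕ) [NeZero q] (u : (ZMod q)ˣ) (w : ℕ → ℝ) (hw0 : ∀ x, 0 ≤ w x) :
    ∑ t ∈ ((Finset.Icc 1 N) ×ˢ (Finset.Icc 1 N)).filter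
      (fun t => ((t.1 : ℕ) : ZMod q) = u * ((t.2 : ℕ) : ZMod q) ∧ IsUnit ((t.1 : ℕ) : ZMod q) ∧
        (T : ℝ) * |Real.log t.1 - Real.log t.2| ≤ 2),
      w t.1 * w t.2 ≤
    7 * ∑ g : (ZMod q)ˣ × Fin (cl T N + 1), (∑ x ∈ cls q T N g.1 g.2, w x) ^ 2 := by
  classical
  set S : (ZMod q)ˣ → ℕ → ℝ := fun g m => ∑ x ∈ cls q T N g m, w x with hS
  set R : Finset ℕ := Finset.range (cl T N + 1) with hR
  set D : Finset ((ZMod q)ˣ × (ℕ × ℕ)) := Finset.univ ×ˢ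
    (R ×ˢ R).filter (fun p => p.1 ≤ p.2 + 3 ∧ p.2 ≤ p.1 + 3) with hD
  set gg : ℕ → (ZMod q)ˣ := fun x => if h : IsUnit ((x : ℕ) : ZMod q) then h.unit else 1 with hgg
  have hgg' : ∀ x : ℕ, IsUnit ((x : ℕ) : ZMod q) → ((gg x : (ZMod q)ˣ) : ZMod q) = x := by
    intro x hx
    rw [hgg]
    simp only [dif_pos hx]
    exact hx.unit_spec
  set P := ((Finset.Icc 1 N) ×ˢ (Finset.Icc 1 N)).filter
      (fun t => ((t.1 : ℕ) : ZMod q) = u * ((t.2 : ℕ) : ZMod q) ∧ IsUnit ((t.1 : ℕ) : ZMod q) ∧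
        (T : ℝ) * |Real.log t.1 - Real.log t.2| ≤ 2) with hP
  have hPm : ∀ t ∈ P, (1 ≤ t.1 ∧ t.1 ≤ N) ∧ (1 ≤ t.2 ∧ t.2 ≤ N) ∧
      ((t.1 : ℕ) : ZMod q) = u * ((t.2 : ℕ) : ZMod q) ∧ IsUnit ((t.2 : ℕ) : ZMod q) ∧
        (T : ℝ) * |Real.log t.1 - Real.log t.2| ≤ 2 := by
    intro t ht
    rw [hP, Finset.mem_filter, Finset.mem_product, Finset.mem_Icc, Finset.mem_Icc] at ht
    obtain ⟨⟨h1, h2⟩, h3, h4, h5⟩ := ht
    refine ⟨h1, h2, h3, ?_, h5⟩
    rw [h3] at h4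
    exact isUnit_of_mul_isUnit_right h4
  have hmaps : ∀ t ∈ P, (gg t.2, (cl T t.1, cl T t.2)) ∈ D := by
    intro t ht
    obtain ⟨h1, h2, h3, h4, h5⟩ := hPm t ht
    rw [hD, Finset.mem_product, Finset.mem_filter, Finset.mem_product, hR, Finset.mem_range,
      Finset.mem_range]
    refine ⟨Finset.mem_univ _, ⟨?_, ?_⟩, cl_near T _ _ h1.1 h2.1 h5, cl_near T _ _ h2.1 h1.1 ?_⟩
    · exact Nat.lt_succ_of_le (cl_le T N _ h1.1 h1.2)
    · exact Nat.lt_succ_of_le (cl_le T N _ h2.1 h2.2)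
    · rwa [abs_sub_comm]
  calc ∑ t ∈ P, w t.1 * w t.2
      = ∑ d ∈ D, ∑ t ∈ P.filter (fun t => (gg t.2, (cl T t.1, cl T t.2)) = d),
          w t.1 * w t.2 := (Finset.sum_fiberwise_of_maps_to hmaps _).symm
    _ ≤ ∑ d ∈ D, S (u * d.1) d.2.1 * S d.1 d.2.2 := by
        refine Finset.sum_le_sum fun d _ => ?_
        rw [hS]
        simp only
        rw [Finset.sum_mul_sum, ← Finset.sum_product']
        refine Finset.sum_le_sum_of_subset_of_nonneg ?_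
          (fun t _ _ => mul_nonneg (hw0 _) (hw0 _))
        intro t ht
        rw [Finset.mem_filter] at ht
        obtain ⟨ht1, ht2⟩ := ht
        obtain ⟨h1, h2, h3, h4, h5⟩ := hPm t ht1
        subst ht2
        rw [Finset.mem_product, mem_cls, mem_cls]
        refine ⟨⟨h1, ?_, rfl⟩, h2, (hgg' _ h4).symm, rfl⟩
        rw [h3, Units.val_mul, hgg' _ h4]
    _ = ∑ g : (ZMod q)ˣ, ∑ p ∈ (R ×ˢ R).filter (fun p => p.1 ≤ p.2 + 3 ∧ p.2 ≤ p.1 + 3),
          S (u * g) p.1 * S g p.2 := by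
        rw [hD, Finset.sum_product]
    _ ≤ ∑ g : (ZMod q)ˣ, (7 / 2 * ∑ m ∈ R, S (u * g) m ^ 2 + 7 / 2 * ∑ m ∈ R, S g m ^ 2) :=
        Finset.sum_le_sum fun g _ => ker_sum R _ _
    _ = 7 * ∑ g : (ZMod q)ˣ, ∑ m ∈ R, S g m ^ 2 := by
        rw [Finset.sum_add_distrib, ← Finset.mul_sum, ← Finset.mul_sum]
        have := Equiv.sum_comp (Equiv.mulLeft u) (fun g => ∑ m ∈ R, S g m ^ 2)
        simp only [Equiv.coe_mulLeft] at this
        rw [this]
        ring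
    _ = _ := by
        rw [Fintype.sum_prod_type]
        congr 1
        refine Finset.sum_congr rfl fun g _ => ?_
        rw [hR, Finset.sum_range]

/-- The energy of one class of indices. -/
theorem class_energy2 (K N q T : ℕ) [NeZero q] (zz : ℕ → ℕ) (yy : ℕ → Fin K → ℕ)
    (hz1 : ∀ x, 1 ≤ x → 1 ≤ zz x)
    (hy1 : ∀ x, 1 ≤ x → ∀ j, 1 ≤ yy x j)
    (hx : ∀ x, 1 ≤ x → x = zz x * ∏ j, yy x j ^ (j.val + 1)) (k : ℕ × (Fin K → ℕ)) :
    ∑ g : (ZMod q)ˣ × Fin (cl T N + 1), (((cls q T N g.1 g.2).filter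
      (fun x => ((zz x, fun j => Nat.log 2 (yy x j)) : ℕ × (Fin K → ℕ)) = k)).card : ℝ) ^ 2 ≤
    ((((Fintype.piFinset (fun j => Finset.Ico (2 ^ k.2 j) (2 * 2 ^ k.2 j))) ×ˢ
      (Fintype.piFinset (fun j => Finset.Ico (2 ^ k.2 j) (2 * 2 ^ k.2 j)))).filter
    (fun t => (∏ j, ((t.1 j : ℕ) : ZMod q) ^ (j.val + 1)) =
        ∏ j, ((t.2 j : ℕ) : ZMod q) ^ (j.val + 1) ∧
      IsUnit (∏ j, ((t.1 j : ℕ) : ZMod q) ^ (j.val + 1)) ∧
      (T : ℝ) * |∑ j, ((j.val : ℝ) + 1) * (Real.log (t.1 j) - Real.log (t.2 j))| ≤ 1)).card : ℝ) := by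
  classical
  set B : (ZMod q)ˣ × Fin (cl T N + 1) → Finset ℕ := fun g =>
    (cls q T N g.1 g.2).filter
      (fun x => ((zz x, fun j => Nat.log 2 (yy x j)) : ℕ × (Fin K → ℕ)) = k) with hB
  have hBm : ∀ g x, x ∈ B g → 1 ≤ x ∧ (x : ZMod q) = (g.1 : ZMod q) ∧ zz x = k.1 ∧
      (∀ j, Nat.log 2 (yy x j) = k.2 j) ∧ cl T x = g.2 := by
    intro g x hxg
    rw [hB] at hxg
    simp only [Finset.mem_filter, mem_cls] at hxg
    obtain ⟨⟨⟨h1, _⟩, h2, h4⟩, h3⟩ := hxg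
    refine ⟨h1, h2, congrArg Prod.fst h3, fun j => ?_, h4⟩
    exact congrFun (congrArg Prod.snd h3) j
  have h1 : ∑ g : (ZMod q)ˣ × Fin (cl T N + 1), ((B g).card : ℝ) ^ 2 =
      ((Finset.univ.sigma (fun g => B g ×ˢ B g)).card : ℝ) := by
    rw [Finset.card_sigma]
    push_cast
    refine Finset.sum_congr rfl (fun g _ => ?_)
    rw [Finset.card_product]
    push_cast
    ring
  change ∑ g : (ZMod q)ˣ × Fin (cl T N + 1), ((B g).card : ℝ) ^ 2 ≤ _
  rw [h1]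
  have hbox : ∀ g x, x ∈ B g → yy x ∈ Fintype.piFinset
      (fun j => Finset.Ico (2 ^ k.2 j) (2 * 2 ^ k.2 j)) := by
    intro g x hxg
    obtain ⟨h1, h2, h3, h4, -⟩ := hBm g x hxg
    rw [Fintype.mem_piFinset]
    intro j
    rw [Finset.mem_Ico, ← h4 j]
    refine ⟨Nat.pow_log_le_self 2 (by have := hy1 x h1 j; omega), ?_⟩
    have := Nat.lt_pow_succ_log_self (b := 2) (by norm_num) (yy x j)
    rw [pow_succ] at this
    omega
  have hcast : ∀ g x, x ∈ B g → ((k.1 : ℕ) : ZMod q) * ∏ j, ((yy x j : ℕ) : ZMod q) ^ (j.val + 1) =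
      (g.1 : ZMod q) := by
    intro g x hxg
    obtain ⟨h1, h2, h3, h4, -⟩ := hBm g x hxg
    rw [← h2, ← h3]
    conv_rhs => rw [hx x h1]
    push_cast
    rfl
  have hlog : ∀ g x, x ∈ B g → Real.log x = Real.log k.1 +
      ∑ j, ((j.val : ℝ) + 1) * Real.log (yy x j) := by
    intro g x hxg
    obtain ⟨h1, h2, h3, h4, -⟩ := hBm g x hxg
    have hz := hz1 x h1
    have hz' : (zz x : ℝ) ≠ 0 := by
      have : (0 : ℝ) < zz x := by exact_mod_cast hz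
      exact this.ne'
    have hyne : ∀ j, ((yy x j : ℕ) : ℝ) ≠ 0 := by
      intro j
      have : (0 : ℝ) < yy x j := by exact_mod_cast hy1 x h1 j
      exact this.ne'
    conv_lhs => rw [hx x h1]
    push_cast
    rw [Real.log_mul hz' (Finset.prod_ne_zero_iff.2 fun j _ => pow_ne_zero _ (hyne j)), h3,
      Real.log_prod (fun j _ => pow_ne_zero _ (hyne j))]
    congr 1
    refine Finset.sum_congr rfl fun j _ => ?_
    rw [Real.log_pow]
    push_cast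
    ring
  have hcard : (Finset.univ.sigma (fun g => B g ×ˢ B g)).card ≤
      (((Fintype.piFinset (fun j => Finset.Ico (2 ^ k.2 j) (2 * 2 ^ k.2 j))) ×ˢ
      (Fintype.piFinset (fun j => Finset.Ico (2 ^ k.2 j) (2 * 2 ^ k.2 j)))).filter
    (fun t => (∏ j, ((t.1 j : ℕ) : ZMod q) ^ (j.val + 1)) =
        ∏ j, ((t.2 j : ℕ) : ZMod q) ^ (j.val + 1) ∧
      IsUnit (∏ j, ((t.1 j : ℕ) : ZMod q) ^ (j.val + 1)) ∧
      (T : ℝ) * |∑ j, ((j.val : ℝ) + 1) * (Real.log (t.1 j) - Real.log (t.2 j))| ≤ 1)).card := by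
    refine Finset.card_le_card_of_injOn
      (fun s : (Σ _ : (ZMod q)ˣ × Fin (cl T N + 1), ℕ × ℕ) => (yy s.2.1, yy s.2.2)) ?_ ?_
    · rintro ⟨g, x, x'⟩ hs
      have hs' : (⟨g, x, x'⟩ : Σ _ : (ZMod q)ˣ × Fin (cl T N + 1), ℕ × ℕ) ∈
        Finset.univ.sigma (fun g => B g ×ˢ B g) := hs
      rw [Finset.mem_sigma, Finset.mem_product] at hs'
      obtain ⟨-, hxg, hxg'⟩ := hs'
      have e1 := hcast g x hxg
      have e2 := hcast g x' hxg'
      have hu1 : IsUnit (((k.1 : ℕ) : ZMod q) * ∏ j, ((yy x j : ℕ) : ZMod q) ^ (j.val + 1)) := by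
        rw [e1]; exact g.1.isUnit
      have hz : IsUnit ((k.1 : ℕ) : ZMod q) := isUnit_of_mul_isUnit_left hu1
      obtain ⟨a1, -, -, -, a5⟩ := hBm g x hxg
      obtain ⟨b1, -, -, -, b5⟩ := hBm g x' hxg'
      change (yy x, yy x') ∈ (Finset.filter _ _ : Finset _)
      rw [Finset.mem_filter, Finset.mem_product]
      refine ⟨⟨hbox g x hxg, hbox g x' hxg'⟩, ?_, isUnit_of_mul_isUnit_right hu1, ?_⟩
      · exact hz.mul_left_cancel (e1.trans e2.symm)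
      · have h6 := cl_eq T x x' a1 b1 (a5.trans b5.symm)
        have h7 : Real.log x - Real.log x' =
            ∑ j, ((j.val : ℝ) + 1) * (Real.log (yy x j) - Real.log (yy x' j)) := by
          rw [hlog g x hxg, hlog g x' hxg', add_sub_add_left_eq_sub, ← Finset.sum_sub_distrib]
          refine Finset.sum_congr rfl fun j _ => ?_
          ring
        rw [h7] at h6
        exact h6
    · rintro ⟨g, x, x'⟩ hs ⟨g2, x2, x2'⟩ hs2 heq
      have hs' : (⟨g, x, x'⟩ : Σ _ : (ZMod q)ˣ × Fin (cl T N + 1), ℕ × ℕ) ∈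
        Finset.univ.sigma (fun g => B g ×ˢ B g) := hs
      have hs2' : (⟨g2, x2, x2'⟩ : Σ _ : (ZMod q)ˣ × Fin (cl T N + 1), ℕ × ℕ) ∈
        Finset.univ.sigma (fun g => B g ×ˢ B g) := hs2
      rw [Finset.mem_sigma, Finset.mem_product] at hs' hs2'
      obtain ⟨-, hxg, hxg'⟩ := hs'
      obtain ⟨-, hxg2, hxg2'⟩ := hs2'
      have e1 : yy x = yy x2 := congrArg Prod.fst heq
      have e2 : yy x' = yy x2' := congrArg Prod.snd heq
      obtain ⟨a1, a2, a3, -, a5⟩ := hBm g x hxg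
      obtain ⟨b1, b2, b3, -, b5⟩ := hBm g2 x2 hxg2
      obtain ⟨a1', a2', a3', -⟩ := hBm g x' hxg'
      obtain ⟨b1', b2', b3', -⟩ := hBm g2 x2' hxg2'
      have f1 : x = x2 := by
        rw [hx x a1, hx x2 b1, a3, b3, e1]
      have f2 : x' = x2' := by
        rw [hx x' a1', hx x2' b1', a3', b3', e2]
      have f3 : g = g2 := by
        refine Prod.ext ?_ ?_
        · apply Units.ext
          rw [← a2, ← b2, f1]
        · apply Fin.ext
          rw [← a5, ← b5, f1]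
      subst f1 f2 f3
      rfl
  exact_mod_cast hcard

theorem pf_G2 (hA : T_A) (hF : T_F2) (hS : T_S) (hW : T_WE) : T_G2 := by
  classical
  intro ε hε
  set η : ℝ := ε / 8 with hη
  have hη0 : 0 < η := by positivity
  obtain ⟨K, hK⟩ := exists_nat_gt (1 / η)
  have hK1 : 1 / η ≤ (K : ℝ) + 1 := by linarith
  obtain ⟨CZ, hCZ, hZ⟩ := count_bound hA K η hη0 hK1
  obtain ⟨CF, hCF, hFb⟩ := hF K η hη0
  have hS' : ∀ x : ℕ, ∃ (z : ℕ) (y : Fin K → ℕ), 1 ≤ x → (1 ≤ z ∧ (∀ j, 1 ≤ y j) ∧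
      x = z * ∏ j, y j ^ (j.val + 1) ∧ ∏ j, y j ≤ rad x ∧ (rad z) ^ (K + 1) ≤ x) := by
    intro x
    by_cases h : 1 ≤ x
    · obtain ⟨z, y, h1⟩ := hS K x h
      exact ⟨z, y, fun _ => h1⟩
    · exact ⟨0, fun _ => 0, fun h' => absurd h' h⟩
  choose zz yy hzy using hS'
  have hz1 : ∀ x, 1 ≤ x → 1 ≤ zz x := fun x h => (hzy x h).1
  have hy1 : ∀ x, 1 ≤ x → ∀ j, 1 ≤ yy x j := fun x h => (hzy x h).2.1
  have hx : ∀ x, 1 ≤ x → x = zz x * ∏ j, yy x j ^ (j.val + 1) := fun x h => (hzy x h).2.2.1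
  have hyr : ∀ x, 1 ≤ x → ∏ j, yy x j ≤ rad x := fun x h => (hzy x h).2.2.2.1
  have hzr : ∀ x, 1 ≤ x → (rad (zz x)) ^ (K + 1) ≤ x := fun x h => (hzy x h).2.2.2.2
  set κ : ℕ → ℕ × (Fin K → ℕ) := fun x => (zz x, fun j => Nat.log 2 (yy x j)) with hκ
  have hK0 : (0 : ℝ) < (K : ℝ) + 1 := by positivity
  set δ : ℝ := η / (K + 1) with hδ
  have hδ0 : 0 < δ := div_pos hη0 hK0
  have hl2 : 0 < Real.log 2 := Real.log_pos (by norm_num)
  set c : ℝ := 1 / (δ * Real.log 2) + 1 with hc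
  have hc0 : 0 < c := by positivity
  refine ⟨7 * ((CZ * c ^ K) ^ 2 * CF), by positivity, ?_⟩
  intro N q T _ hN hqN u
  have hN1 : (1 : ℝ) ≤ N := by exact_mod_cast hN
  have hN0 : (0 : ℝ) < N := by linarith
  have hq1 : (1 : ℝ) ≤ q := by exact_mod_cast Nat.one_le_iff_ne_zero.2 (NeZero.ne q)
  have hT1 : (1 : ℝ) ≤ (T : ℝ) + 1 := by
    have : (0 : ℝ) ≤ T := Nat.cast_nonneg T
    linarith
  set Q : ℝ := (q : ℝ) * ((T : ℝ) + 1) with hQ
  have hQ1 : 1 ≤ Q := by rw [hQ]; nlinarith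
  have hQ0 : 0 < Q := by linarith
  -- the size of the logarithmic box is at most the radical
  have hAle : ∀ x, 1 ≤ x → ∏ j, 2 ^ ((κ x).2 j) ≤ rad x := by
    intro x h
    refine le_trans (Finset.prod_le_prod' (fun j _ => ?_)) (hyr x h)
    exact Nat.pow_log_le_self 2 (by have := hy1 x h j; omega)
  set w : ℕ → ℝ := fun x => 1 / Real.sqrt (w5 Q (rad x)) with hw
  set v : ℕ × (Fin K → ℕ) → ℝ := fun k => w5 Q (((∏ j, 2 ^ (k.2 j) : ℕ) : ℝ)) with hv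
  have hv0 : ∀ k, 0 < v k := by
    intro k
    apply w5_pos hQ0
    exact_mod_cast Finset.prod_pos (fun j _ => by positivity)
  have hr0 : ∀ x, (0 : ℝ) < rad x := fun x => by exact_mod_cast rad_pos' x
  have hw0 : ∀ x, 0 ≤ w x := fun x => by
    rw [hw]; positivity
  have hwle : ∀ x ∈ Finset.Icc 1 N, w x ≤ 1 / Real.sqrt (v (κ x)) := by
    intro x hxN
    rw [Finset.mem_Icc] at hxN
    have h1 : v (κ x) ≤ w5 Q (rad x) := by
      refine hW.2.1 Q _ _ hQ1 ?_ (by exact_mod_cast hAle x hxN.1)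
      exact_mod_cast Nat.one_le_iff_ne_zero.2
        (Finset.prod_ne_zero_iff.2 fun j _ => pow_ne_zero _ two_ne_zero)
    exact one_div_le_one_div_of_le (Real.sqrt_pos.2 (hv0 _)) (Real.sqrt_le_sqrt h1)
  -- energy
  have hM : ∀ k ∈ (Finset.Icc 1 N).image κ, ∑ g : (ZMod q)ˣ × Fin (cl T N + 1),
      (((cls q T N g.1 g.2).filter (fun x => κ x = k)).card : ℝ) ^ 2 ≤
        (CF * (N : ℝ) ^ η) * v k := by
    intro k hk
    obtain ⟨x, hxN, hxk⟩ := Finset.mem_image.1 hk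
    rw [Finset.mem_Icc] at hxN
    refine (class_energy2 K N q T zz yy hz1 hy1 hx k).trans ?_
    refine hFb N q T hqN (fun j => 2 ^ k.2 j) (fun j => Nat.one_le_two_pow) ?_
    rw [← hxk]
    exact (hAle x hxN.1).trans ((rad_le' x hxN.1).trans hxN.2)
  have hmain := energy_bound (Finset.Icc 1 N) κ
    (fun g : (ZMod q)ˣ × Fin (cl T N + 1) => cls q T N g.1 g.2)
    (fun g => Finset.filter_subset _ _) w v hv0 hw0 hwle (CF * (N : ℝ) ^ η) hM
  have htw := twist2 q T N u w hw0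
  -- the number of indices
  have hcard : (((Finset.Icc 1 N).image κ).card : ℝ) ≤ CZ * c ^ K * (N : ℝ) ^ (3 * η) := by
    have hsub : (Finset.Icc 1 N).image κ ⊆
        ((Finset.Icc 1 N).filter (fun z => (rad z) ^ (K + 1) ≤ N)) ×ˢ
        (Fintype.piFinset (fun _ : Fin K => Finset.range (Nat.log 2 N + 1))) := by
      intro k hk
      obtain ⟨x, hxN, hxk⟩ := Finset.mem_image.1 hk
      rw [Finset.mem_Icc] at hxN
      rw [← hxk, Finset.mem_product, Finset.mem_filter, Finset.mem_Icc, Fintype.mem_piFinset]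
      have hp1 : 1 ≤ ∏ j, yy x j ^ (j.val + 1) :=
        Nat.succ_le_of_lt (Finset.prod_pos (fun j _ => pow_pos (hy1 x hxN.1 j) _))
      have hzx : zz x ≤ x := by
        conv_rhs => rw [hx x hxN.1]
        exact Nat.le_mul_of_pos_right _ hp1
      refine ⟨⟨⟨hz1 x hxN.1, hzx.trans hxN.2⟩, (hzr x hxN.1).trans hxN.2⟩, fun j => ?_⟩
      rw [Finset.mem_range, Nat.lt_succ_iff]
      change Nat.log 2 (yy x j) ≤ Nat.log 2 N
      apply Nat.log_mono_right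
      have h1 : yy x j ≤ ∏ j, yy x j :=
        Finset.single_le_prod' (fun i _ => hy1 x hxN.1 i) (Finset.mem_univ j)
      exact h1.trans ((hyr x hxN.1).trans ((rad_le' x hxN.1).trans hxN.2))
    have h1 := Finset.card_le_card hsub
    rw [Finset.card_product, Fintype.card_piFinset] at h1
    simp only [Finset.card_range, Finset.prod_const, Finset.card_univ, Fintype.card_fin] at h1
    have h2 : (((Finset.Icc 1 N).image κ).card : ℝ) ≤
        (((Finset.Icc 1 N).filter (fun z => (rad z) ^ (K + 1) ≤ N)).card : ℝ) *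
          ((Nat.log 2 N + 1 : ℕ) : ℝ) ^ K := by exact_mod_cast h1
    have h3 : ((Nat.log 2 N + 1 : ℕ) : ℝ) ^ K ≤ c ^ K * (N : ℝ) ^ η := by
      have h4 := pow_le_pow_left₀ (Nat.cast_nonneg _) (log_bound δ hδ0 N hN) K
      refine h4.trans ?_
      rw [mul_pow, ← Real.rpow_natCast ((N : ℝ) ^ δ) K, ← Real.rpow_mul hN0.le]
      refine mul_le_mul_of_nonneg_left ?_ (by positivity)
      refine Real.rpow_le_rpow_of_exponent_le hN1 ?_
      rw [hδ, div_mul_eq_mul_div, div_le_iff₀ hK0]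
      linarith
    calc (((Finset.Icc 1 N).image κ).card : ℝ) ≤ _ := h2
      _ ≤ (CZ * (N : ℝ) ^ (2 * η)) * (c ^ K * (N : ℝ) ^ η) :=
          mul_le_mul (hZ N hN) h3 (by positivity) (by positivity)
      _ = CZ * c ^ K * (N : ℝ) ^ (3 * η) := by
          rw [show 3 * η = 2 * η + η by ring, Real.rpow_add hN0]; ring
  calc (∑ t ∈ ((Finset.Icc 1 N) ×ˢ (Finset.Icc 1 N)).filter
            (fun t => ((t.1 : ℕ) : ZMod q) = u * ((t.2 : ℕ) : ZMod q) ∧
              IsUnit ((t.1 : ℕ) : ZMod q) ∧ (T : ℝ) * |Real.log t.1 - Real.log t.2| ≤ 2),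
        1 / Real.sqrt (w5 Q (rad t.1) * w5 Q (rad t.2)))
      = ∑ t ∈ ((Finset.Icc 1 N) ×ˢ (Finset.Icc 1 N)).filter
            (fun t => ((t.1 : ℕ) : ZMod q) = u * ((t.2 : ℕ) : ZMod q) ∧
              IsUnit ((t.1 : ℕ) : ZMod q) ∧ (T : ℝ) * |Real.log t.1 - Real.log t.2| ≤ 2),
        w t.1 * w t.2 := by
        refine Finset.sum_congr rfl (fun t _ => ?_)
        rw [hw, Real.sqrt_mul (w5_pos hQ0 (hr0 _)).le]
        simp only [one_div, mul_inv]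
    _ ≤ _ := htw
    _ ≤ 7 * ((((Finset.Icc 1 N).image κ).card : ℝ) ^ 2 * (CF * (N : ℝ) ^ η)) :=
        mul_le_mul_of_nonneg_left hmain (by norm_num)
    _ ≤ 7 * ((CZ * c ^ K * (N : ℝ) ^ (3 * η)) ^ 2 * (CF * (N : ℝ) ^ η)) := by
        refine mul_le_mul_of_nonneg_left ?_ (by norm_num)
        refine mul_le_mul_of_nonneg_right ?_ (by positivity)
        exact pow_le_pow_left₀ (Nat.cast_nonneg _) hcard 2
    _ = 7 * ((CZ * c ^ K) ^ 2 * CF) * (N : ℝ) ^ (7 * η) := by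
        rw [show 7 * η = 3 * η + 3 * η + η by ring, Real.rpow_add hN0, Real.rpow_add hN0]; ring
    _ ≤ 7 * ((CZ * c ^ K) ^ 2 * CF) * (N : ℝ) ^ ε := by
        refine mul_le_mul_of_nonneg_left ?_ (by positivity)
        refine Real.rpow_le_rpow_of_exponent_le hN1 ?_
        rw [hη]; linarith

end Pool.Agent.H14.AF
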